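import Pool.Agent.H68.GHY.Targets

/-!
Row PWB of the board ghy: one value on the critical line (composition).
-/

set_option autoImplicit false

namespace Pool.Agent.H17.GHY

open MeasureTheory Pool.Agent.H34.GM Pool.Agent.H34.GZ Pool.Agent.H34.GU Pool.Agent.H34.GA
  Pool.Agent.H68.GHY

/-- forms of positive norm do not vanish identically -/
theorem pwb_nz {m q : ℕ} [NeZero q] {T : ℕ → Finset (ZM m)} {D : Set (V m)}
    (hS : SysZ m q T D) {F : Mat m → VN m q → ℂ} (h : nU D F ≠ 0) : NZ F := by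
  by_contra hc
  apply h
  have hF : ∀ g x, g.det ≠ 0 → F g x = 0 := by
    intro g x hg
    by_contra h1
    exact hc ⟨g, x, hg, h1⟩
  unfold nU
  refine Finset.sum_eq_zero fun x _ => ?_
  refine setIntegral_eq_zero_of_forall_eq_zero fun z hz => ?_
  have h1 : (mt z).det ≠ 0 := by
    intro h2
    have h3 := (hS.dom.shell z hz).1
    unfold aN at h3
    rw [h2, abs_zero, Real.zero_rpow] at h3
    · linarith
    · have h4 : (m : ℝ) ≠ 0 := by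
        have := hS.one_le
        exact_mod_cast (by omega : m ≠ 0)
      exact one_div_ne_zero h4
  rw [hF _ x h1]
  simp

/-- the weight near zero -/
theorem pwb_min {r δ : ℝ} (K : ℕ) (hδ : 0 < δ) (hδ1 : δ ≤ 1) :
    min 1 ((r / δ) ^ K) ≤ δ⁻¹ ^ K * min 1 (r ^ K) := by
  have h1 : (1 : ℝ) ≤ δ⁻¹ ^ K := one_le_pow₀ ((one_le_inv₀ hδ).2 hδ1)
  have h2 : (0 : ℝ) ≤ δ⁻¹ ^ K := by positivity
  rw [mul_min_of_nonneg _ _ h2]
  refine min_le_min (by simpa using h1) (le_of_eq ?_)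
  rw [div_eq_mul_inv, mul_pow, mul_comm]

/-- the length of the sum -/
theorem pwb_len {N δ m ε : ℝ} (hN : 1 ≤ N) (hδ : 0 < δ) (hm : 1 ≤ m) (hε : 0 < ε) :
    (N ^ (1 / m) / δ) ^ (m / 2 + ε) ≤
      (N ^ ((1 : ℝ) / 2) * δ⁻¹ ^ (m / 2)) * (N * δ⁻¹) ^ ε := by
  have hN0 : 0 < N := by linarith
  have hm0 : 0 < m := by linarith
  have hi : 0 < δ⁻¹ := inv_pos.2 hδ
  have e1 : (N ^ (1 / m) / δ) ^ (m / 2 + ε) =
      N ^ (1 / m * (m / 2 + ε)) * δ⁻¹ ^ (m / 2 + ε) := by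
    rw [div_eq_mul_inv, Real.mul_rpow (Real.rpow_nonneg hN0.le _) hi.le, ← Real.rpow_mul hN0.le]
  have e2 : (N ^ ((1 : ℝ) / 2) * δ⁻¹ ^ (m / 2)) * (N * δ⁻¹) ^ ε =
      N ^ ((1 : ℝ) / 2 + ε) * δ⁻¹ ^ (m / 2 + ε) := by
    rw [Real.mul_rpow hN0.le hi.le, Real.rpow_add hN0, Real.rpow_add hi]
    ring
  rw [e1, e2]
  refine mul_le_mul_of_nonneg_right ?_ (Real.rpow_nonneg hi.le _)
  refine Real.rpow_le_rpow_of_exponent_le hN ?_
  have h3 : 1 / m * (m / 2 + ε) = 1 / 2 + ε / m := by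
    field_simp
  rw [h3]
  have h4 : ε / m ≤ ε := div_le_self hε.le hm
  linarith

/-- the size of the level -/
theorem pwb_lev {N δ m ε : ℝ} (hN : 1 ≤ N) (hδ : 0 < δ) (hm : 1 ≤ m) (hε : 0 < ε) :
    (N ^ (1 / m) / δ) ^ ε ≤ (N * δ⁻¹) ^ ε := by
  have hN0 : 0 < N := by linarith
  have h1 : N ^ (1 / m) ≤ N := by
    have h2 := Real.rpow_le_rpow_of_exponent_le hN (show 1 / m ≤ 1 by
      rw [div_le_one (by linarith)]
      exact hm)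
    rwa [Real.rpow_one] at h2
  rw [div_eq_mul_inv]
  refine Real.rpow_le_rpow (by positivity) ?_ hε.le
  exact mul_le_mul_of_nonneg_right h1 (inv_pos.2 hδ).le

theorem pwb_jk (m : ℕ) (k : ℝ → ℂ) (lam : ℕ → ℂ) (X t : ℝ) : 0 ≤ JK m k lam X t := by
  unfold JK
  exact integral_nonneg fun τ => by positivity

theorem pf_PWB (hPRF : T_PRF) (hFR : T_FR1) (hPHB : T_PHB) (hCNR : T_CNR) (hCFA : T_CFA)
    (hCFB : Pool.Agent.H34.GA.T_CFB) (hCIF : T_CIF) (hSMA : Pool.Agent.H34.GA.T_SMA)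
    (hPSB : T_PSB) (hFEI : T_FEI) (hLMV : T_LMV) (hLNZ : T_LNZ) (hUNI : T_UNI) (hAFE : T_AFE)
    (hZUB : T_ZUB) (hZLS : T_ZLS) : T_PWB := by
  obtain ⟨χ, hχ⟩ := hPRF
  intro w k hw m ε hm hε
  have hmR : (1 : ℝ) ≤ m := by exact_mod_cast hm
  obtain ⟨r0, hr0, hP1⟩ := hPSB m χ hm hχ
  obtain ⟨K, CE, hKm, hCE, hA⟩ := hAFE w k hw m r0 ε hm hr0 hε
  obtain ⟨C2, hC2, hP2⟩ := hP1 K
  obtain ⟨B, hB, hZU⟩ := hZUB m χ hm hχ
  obtain ⟨c4, hc4, hZL⟩ := hZLS m χ hm hχ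
  obtain ⟨CN, hCN, hN⟩ := hCNR m hm
  obtain ⟨C6, hC6, hLam⟩ := hLMV m hm
  obtain ⟨CP, cP, AP, hCP, hcP, hP⟩ := hPHB χ hχ m hm 1 0 one_pos
  have hCN0 : 0 < CN := by linarith
  refine ⟨min (1 / (4 * CN)) (c4 / 3), c4⁻¹ * CE * (C2 * C6 + B), max CE 1,
    lt_min (by positivity) (by positivity), by positivity, le_max_right _ _, ?_⟩
  intro N _ T D hS F lam mu hF hn P δ hLip hP0 hδ0 hδ2 hδP L hL hLW t ht
  have hNZ : NZ F := pwb_nz hS (by rw [hn]; exact one_ne_zero)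
  obtain ⟨H, xv, hFr⟩ := hFR m N hm hS.two_le
  have hNR : (1 : ℝ) ≤ N := by
    have h1 : 1 ≤ N := by have := hS.two_le; omega
    exact_mod_cast h1
  have hδ1 : δ ≤ 1 := by linarith
  have hcN : δ * (1 + P) ≤ 1 / (4 * CN) := hδP.trans (min_le_left _ _)
  have hcL : δ * (1 + P) ≤ c4 / 3 := hδP.trans (min_le_right _ _)
  have hδc : δ ≤ δ * (1 + P) := by nlinarith
  have hc1 : Cof m (c1 D F) 1 := by
    have h1 := hCFA m N T D hS F lam hF.toHecA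
    rw [hn] at h1
    exact h1
  have hc2 : Cof m (c2 D H xv F) 1 := by
    have h1 := hCFB m N T D hS H xv hFr F lam hF.toHecA
    rw [hn] at h1
    exact h1
  have hIf := hCIF m N T D hS F lam mu hF
  have hLa := hLam N T D hS F lam hF.toHecA hNZ
  -- near the unit matrix
  have hnear : ∀ z : Mat m, sz (z - 1) ≤ δ → ‖c1 D F z - 1‖ ≤ 1 / 4 := by
    intro z hz
    have h1 : CN * (δ * (1 + P)) ≤ 1 / 4 := by
      calc CN * (δ * (1 + P)) ≤ CN * (1 / (4 * CN)) := mul_le_mul_of_nonneg_left hcN hCN0.le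
        _ = 1 / 4 := by field_simp
    have h2 : CN * sz (z - 1) ≤ 1 := by
      have h3 : CN * sz (z - 1) ≤ CN * (δ * (1 + P)) :=
        mul_le_mul_of_nonneg_left (hz.trans hδc) hCN0.le
      linarith
    refine (hN N T D hS F lam hF.toHecA hn P hLip hP0 z h2).trans ?_
    calc CN * P * sz (z - 1) ≤ CN * P * δ := mul_le_mul_of_nonneg_left hz (by positivity)
      _ ≤ CN * (δ * (1 + P)) := by
          have : 0 ≤ CN * δ := by positivity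
          nlinarith
      _ ≤ 1 / 4 := h1
  obtain ⟨hΦ, hΦ0, -, -⟩ := hP δ hδ0 hδ2
  obtain ⟨Φ, hΦd⟩ : ∃ Φ : Mat m → ℂ, Φ = PH m χ δ := ⟨_, rfl⟩
  have hΦd' : Φ = dD^[m] (bi m χ δ) := hΦd
  rw [← hΦd'] at hΦ hΦ0
  have hAd : Adm F (Pool.Agent.H34.GA.cf Φ) := Or.inr hΦ0
  have hWc := hSMA m N T D hS F lam hF.toCusB hNZ Φ hΦ hAd
  have hFE := hFEI m N T D hS H xv hFr F lam hF.toCusB hNZ Φ hΦ hAd
  have hp1 := hP2 δ hδ0 hδ2 (c1 D F) hc1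
  have hp2 := hP2 δ hδ0 hδ2 (c2 D H xv F) hc2
  have hZUc := hZU δ hδ0 hδ2 (c1 D F) hc1
  have hZLc := hZL δ hδ0 hδ2 (c1 D F) mu hc1 hIf hnear (1 / 2 + t * Complex.I)
  rw [← hΦd] at hp1 hp2 hZLc
  obtain ⟨-, -, -, hsu, hMe⟩ := hp1
  obtain ⟨hps, hcc, -, -, -⟩ := hp2
  obtain ⟨ψ, hψ⟩ : ∃ ψ : ℝ → ℂ, ψ = uu Φ (c1 D F) := ⟨_, rfl⟩
  obtain ⟨ψ', hψ'⟩ : ∃ ψ' : ℝ → ℂ, ψ' = uu (Pool.Agent.H34.GA.cf Φ) (c2 D H xv F) := ⟨_, rfl⟩
  rw [← hψ] at hWc hFE hsu hMe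
  rw [← hψ'] at hFE hps hcc
  have hκ : (1 : ℝ) ≤ kp m N := by
    unfold kp
    exact Real.one_le_rpow hNR (by positivity)
  -- the bound on the critical line
  have hMb : ∀ t : ℝ, ‖MelA m ψ (1 / 2 + t * Complex.I)‖ ≤ B := by
    intro t
    rw [hMe, hΦd]
    refine hZUc _ ?_
    have h1 : (1 / 2 + (t : ℂ) * Complex.I).re = 1 / 2 := by simp
    rw [h1, abs_of_pos (by norm_num)]
    norm_num
  have hps2 : ∀ r : ℝ, 0 < r → ‖ψ' r‖ ≤ C2 * δ⁻¹ ^ K * min 1 (r ^ K) := by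
    intro r hr
    refine (hps r hr).trans ?_
    rw [mul_assoc]
    exact mul_le_mul_of_nonneg_left (pwb_min K hδ0 hδ1) hC2.le
  have hU := hUNI m K (kp m N) lam L ψ ψ' C6 (C2 * δ⁻¹ ^ K) hm (by linarith) hKm hLa hL
    (hLNZ m N T D hS F lam hF.toHecA hNZ L hL) hWc (hLW ψ hWc) hcc hps2 hFE
  have hMb' : ∀ t : ℝ, ‖MelA m ψ' (1 / 2 + t * Complex.I)‖ ≤ B := by
    intro t
    rw [hU t]
    exact hMb t
  obtain ⟨X, hX⟩ : ∃ X : ℝ, X = max CE 1 * ((N : ℝ) ^ ((1 : ℝ) / 2) * δ⁻¹ ^ ((m : ℝ) / 2)) *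
      ((N : ℝ) * δ⁻¹) ^ ε := ⟨_, rfl⟩
  have hXl : CE * (kp m N / δ) ^ ((m : ℝ) / 2 + ε) ≤ X := by
    have h1 := pwb_len (δ := δ) hNR hδ0 hmR hε
    rw [hX, mul_assoc (max CE 1)]
    unfold kp
    exact mul_le_mul (le_max_left _ _) h1 (by positivity) (by positivity)
  have hfin := hA (kp m N) δ ψ ψ' lam C2 B C6 hκ hδ0 hδ2 hC2.le hB.le hC6.le hLa hsu hWc hcc hps
    hFE hMb hMb' X t hXl
  rw [hLW ψ hWc, norm_mul, hMe] at hfin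
  -- the lower bound
  have hs0 : δ * (1 + ‖(1 / 2 + t * Complex.I : ℂ)‖) ≤ c4 := by
    have h4 : ‖(1 / 2 + t * Complex.I : ℂ)‖ ≤ 1 / 2 + |t| := by
      refine (norm_add_le _ _).trans (le_of_eq ?_)
      rw [norm_mul, Complex.norm_I, mul_one, Complex.norm_real, Real.norm_eq_abs]
      norm_num
    have h5 : δ * |t| ≤ c4 / 3 := ht.trans (min_le_right _ _)
    have h6 : δ ≤ c4 / 3 := hδc.trans hcL
    calc δ * (1 + ‖(1 / 2 + t * Complex.I : ℂ)‖) ≤ δ * (1 + (1 / 2 + |t|)) :=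
          mul_le_mul_of_nonneg_left (by linarith) hδ0.le
      _ = 3 / 2 * δ + δ * |t| := by ring
      _ ≤ c4 := by linarith
  have hlow := hZLc hs0
  have hlev := pwb_lev (δ := δ) hNR hδ0 hmR hε
  have hJ := pwb_jk m k lam X t
  rw [← hX]
  obtain ⟨J, hJd⟩ : ∃ J : ℝ, J = JK m k lam X t := ⟨_, rfl⟩
  rw [← hJd] at hfin hJ ⊢
  obtain ⟨Q, hQd⟩ : ∃ Q : ℝ, Q = ∏ i : Fin m, ∏ j,
      ‖(1 / 2 + t * Complex.I : ℂ) - ((i : ℕ) + 1) - mu j‖ := ⟨_, rfl⟩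
  rw [← hQd] at hlow ⊢
  have hk1 : (kp m N / δ) ^ ε ≤ ((N : ℝ) * δ⁻¹) ^ ε := hlev
  have hR0 : 0 < ((N : ℝ) * δ⁻¹) ^ ε := by
    have : 0 < (N : ℝ) := by linarith
    positivity
  have hin : C2 * C6 + B * J ≤ (C2 * C6 + B) * (1 + J) := by
    have h1 : 0 ≤ C2 * C6 * J := by positivity
    nlinarith
  have hin0 : 0 ≤ C2 * C6 + B * J := by positivity
  have hup : ‖L (1 / 2 + t * Complex.I)‖ * ‖ZA Φ (c1 D F) (1 / 2 + t * Complex.I)‖ ≤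
      CE * ((N : ℝ) * δ⁻¹) ^ ε * ((C2 * C6 + B) * (1 + J)) := by
    refine hfin.trans ?_
    exact mul_le_mul (mul_le_mul_of_nonneg_left hk1 hCE.le) hin hin0 (by positivity)
  have hlo : ‖L (1 / 2 + t * Complex.I)‖ * (c4 * δ ^ (m ^ 2) * Q) ≤
      ‖L (1 / 2 + t * Complex.I)‖ * ‖ZA Φ (c1 D F) (1 / 2 + t * Complex.I)‖ :=
    mul_le_mul_of_nonneg_left hlow (norm_nonneg _)
  have hall := hlo.trans hup
  have e1 : ‖L (1 / 2 + t * Complex.I)‖ * (δ ^ (m ^ 2) * Q) =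
      c4⁻¹ * (‖L (1 / 2 + t * Complex.I)‖ * (c4 * δ ^ (m ^ 2) * Q)) := by
    field_simp
  rw [e1]
  refine (mul_le_mul_of_nonneg_left hall (inv_pos.2 hc4).le).trans (le_of_eq ?_)
  ring

end Pool.Agent.H17.GHY
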